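import Pool.Agent.Helper33.IR.Goals

/-!
# Packet IR-CRZ (project IR): a change of the digit `Z` is a crossing
-/

set_option autoImplicit false

namespace Pool.Agent.Helper97.IR

open Pool.Agent.Helper33.IR

theorem three_pow_odd (K : ℕ) : ∃ c : ℕ, 3 ^ K = 2 * c + 1 := by
  have h : Odd (3 ^ K) := Odd.pow (by decide)
  exact h

/-- thresholds are not on the orbit. -/
theorem ne_thr {J K : ℕ} (hJ : 2 ≤ J) {t : ℚ} (ht : t ∈ Th4) : (4 : ℚ) ^ J / 3 ^ K ≠ t := by
  intro h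
  obtain ⟨c, hc⟩ := three_pow_odd K
  obtain ⟨i, rfl⟩ := Nat.exists_eq_add_of_le hJ
  have h3 : (3 : ℚ) ^ K = 2 * c + 1 := by exact_mod_cast hc
  have h4 : (4 : ℚ) ^ (2 + i) = 16 * 4 ^ i := by
    rw [pow_add]
    norm_num
  have hpos : (0 : ℚ) < 2 * c + 1 := by positivity
  rw [h3, h4, div_eq_iff hpos.ne'] at h
  simp only [Th4, Finset.mem_insert, Finset.mem_singleton] at ht
  rcases ht with rfl | rfl | rfl | rfl | rfl | rfl | rfl
  · have h5 : (16 : ℚ) * 4 ^ i = 2 * c + 1 := by linarith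
    have h6 : 16 * 4 ^ i = 2 * c + 1 := by exact_mod_cast h5
    omega
  · have h5 : (9 : ℚ) * (16 * 4 ^ i) = 10 * (2 * c + 1) := by linarith
    have h6 : 9 * (16 * 4 ^ i) = 10 * (2 * c + 1) := by exact_mod_cast h5
    omega
  · have h5 : (3 : ℚ) * (16 * 4 ^ i) = 4 * (2 * c + 1) := by linarith
    have h6 : 3 * (16 * 4 ^ i) = 4 * (2 * c + 1) := by exact_mod_cast h5
    omega
  · have h5 : (2 : ℚ) * (16 * 4 ^ i) = 3 * (2 * c + 1) := by linarith
    have h6 : 2 * (16 * 4 ^ i) = 3 * (2 * c + 1) := by exact_mod_cast h5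
    omega
  · have h5 : (5 : ℚ) * (16 * 4 ^ i) = 9 * (2 * c + 1) := by linarith
    have h6 : 5 * (16 * 4 ^ i) = 9 * (2 * c + 1) := by exact_mod_cast h5
    omega
  · have h5 : (16 : ℚ) * 4 ^ i = 2 * (2 * c + 1) := by linarith
    have h6 : 16 * 4 ^ i = 2 * (2 * c + 1) := by exact_mod_cast h5
    omega
  · have h5 : (16 : ℚ) * 4 ^ i = 3 * (2 * c + 1) := by linarith
    have h6 : 16 * 4 ^ i = 3 * (2 * c + 1) := by exact_mod_cast h5
    omega

/-- `ze` is constant between thresholds. -/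
theorem ze_congr {r s : ℚ} (h : ∀ t ∈ Th4, r ≠ t ∧ s ≠ t ∧ (t < r ↔ t < s)) : ze r = ze s := by
  have hm : ∀ t ∈ Th4, (t < r ↔ t < s) ∧ (r < t ↔ s < t) ∧ (r ≤ t ↔ s ≤ t) ∧ (t ≤ r ↔ t ≤ s) := by
    intro t ht
    obtain ⟨h1, h2, h3⟩ := h t ht
    have a1 : r < t ↔ ¬ t < r := by
      rw [not_lt]
      exact ⟨le_of_lt, fun h => lt_of_le_of_ne h h1⟩
    have a2 : s < t ↔ ¬ t < s := by
      rw [not_lt]
      exact ⟨le_of_lt, fun h => lt_of_le_of_ne h h2⟩
    have a3 : r ≤ t ↔ ¬ t < r := not_lt.symm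
    have a4 : s ≤ t ↔ ¬ t < s := not_lt.symm
    have a5 : t ≤ r ↔ t < r := ⟨fun h => lt_of_le_of_ne h (Ne.symm h1), le_of_lt⟩
    have a6 : t ≤ s ↔ t < s := ⟨fun h => lt_of_le_of_ne h (Ne.symm h2), le_of_lt⟩
    rw [a1, a2, a3, a4, a5, a6, h3]
    exact ⟨Iff.rfl, Iff.rfl, Iff.rfl, Iff.rfl⟩
  have m1 := hm 1 (by simp [Th4])
  have m2 := hm (10 / 9) (by simp [Th4])
  have m3 := hm (4 / 3) (by simp [Th4])
  have m4 := hm (3 / 2) (by simp [Th4])
  have m5 := hm (9 / 5) (by simp [Th4])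
  have m6 := hm 2 (by simp [Th4])
  unfold ze
  simp only [m1.1, m4.2.1, m6.1, m2.1, m3.2.1, m4.1, m5.2.2.1]

theorem log_quot (J K : ℕ) : Real.log (((4 : ℚ) ^ J / 3 ^ K : ℚ) : ℝ) = -lin K J := by
  push_cast
  rw [Real.log_div (by positivity) (by positivity), Real.log_pow, Real.log_pow]
  unfold lin
  push_cast
  ring

theorem gCRZ : G_CRZ := by
  intro q p q' p' _ j hj hZ
  by_contra hno
  push Not at hno
  apply hZ
  set k := Nat.log 3 (4 ^ j) with hk
  have hk1 : 3 ^ k ≤ 4 ^ j := Nat.pow_log_le_self 3 (by positivity)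
  have hk2 : 4 ^ j < 3 * 3 ^ k := by
    have h := Nat.lt_pow_succ_log_self (b := 3) (by norm_num) (4 ^ j)
    rw [← hk, pow_succ] at h
    omega
  have hk3 : k ≤ 2 * j := by
    have h1 : 3 ^ k ≤ 3 ^ (2 * j) := by
      refine hk1.trans ?_
      rw [pow_mul]
      exact Nat.pow_le_pow_left (by norm_num) j
    exact (Nat.pow_le_pow_iff_right (by norm_num)).1 h1
  have hr : (0 : ℚ) < 4 ^ j / 3 ^ k := by positivity
  have hr' : (0 : ℚ) < 4 ^ (j + p) / 3 ^ (k + q) := by positivity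
  have htpos : ∀ t ∈ Th4, (0 : ℚ) < t := by
    intro t ht
    simp only [Th4, Finset.mem_insert, Finset.mem_singleton] at ht
    rcases ht with rfl | rfl | rfl | rfl | rfl | rfl | rfl <;> norm_num
  have key : ∀ t ∈ Th4, ((4 : ℚ) ^ j / 3 ^ k ≠ t) ∧ ((4 : ℚ) ^ (j + p) / 3 ^ (k + q) ≠ t) ∧
      (t < (4 : ℚ) ^ j / 3 ^ k ↔ t < (4 : ℚ) ^ (j + p) / 3 ^ (k + q)) := by
    intro t ht
    have n1 := ne_thr (J := j) (K := k) hj ht
    have n2 := ne_thr (J := j + p) (K := k + q) (by omega) ht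
    refine ⟨n1, n2, ?_⟩
    have h1 := hno t ht
    unfold Cross4 at h1
    push Not at h1
    have h2 := h1 k hk3
    have e1 := log_quot j k
    have e2 : Real.log (((4 : ℚ) ^ (j + p) / 3 ^ (k + q) : ℚ) : ℝ) = -lin k j - lin q p := by
      rw [log_quot]
      unfold lin
      push_cast
      ring
    have tp : (0 : ℝ) < (t : ℝ) := by exact_mod_cast htpos t ht
    have rp : (0 : ℝ) < (((4 : ℚ) ^ j / 3 ^ k : ℚ) : ℝ) := by exact_mod_cast hr
    have rp' : (0 : ℝ) < (((4 : ℚ) ^ (j + p) / 3 ^ (k + q) : ℚ) : ℝ) := by exact_mod_cast hr'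
    have i1 : t < (4 : ℚ) ^ j / 3 ^ k ↔ Real.log (t : ℝ) < -lin k j := by
      rw [← e1, Real.log_lt_log_iff tp rp]
      exact_mod_cast Iff.rfl
    have i2 : t < (4 : ℚ) ^ (j + p) / 3 ^ (k + q) ↔ Real.log (t : ℝ) < -lin k j - lin q p := by
      rw [← e2, Real.log_lt_log_iff tp rp']
      exact_mod_cast Iff.rfl
    have i3 : -lin k j ≠ Real.log (t : ℝ) := by
      intro h
      rw [← e1] at h
      have h3 := Real.log_injOn_pos (Set.mem_Ioi.2 rp) (Set.mem_Ioi.2 tp) h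
      exact n1 (by exact_mod_cast h3)
    have i4 : -lin k j - lin q p ≠ Real.log (t : ℝ) := by
      intro h
      rw [← e2] at h
      have h3 := Real.log_injOn_pos (Set.mem_Ioi.2 rp') (Set.mem_Ioi.2 tp) h
      exact n2 (by exact_mod_cast h3)
    rw [i1, i2]
    constructor
    · intro h
      by_contra hc
      push Not at hc
      have hc' : -lin k j - lin q p < Real.log (t : ℝ) := lt_of_le_of_ne hc i4
      have : (-lin k j - Real.log (t : ℝ)) * (-lin k j - Real.log (t : ℝ) - lin q p) < 0 :=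
        mul_neg_of_pos_of_neg (by linarith) (by linarith)
      linarith
    · intro h
      by_contra hc
      push Not at hc
      have hc' : -lin k j < Real.log (t : ℝ) := lt_of_le_of_ne hc i3
      have : (-lin k j - Real.log (t : ℝ)) * (-lin k j - Real.log (t : ℝ) - lin q p) < 0 :=
        mul_neg_of_neg_of_pos (by linarith) (by linarith)
      linarith
  have hss : ss j = 4 ^ j / 3 ^ k := rfl
  have h1le : (1 : ℚ) < 4 ^ j / 3 ^ k := by
    have h := (key 1 (by simp [Th4])).1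
    refine lt_of_le_of_ne ?_ (Ne.symm h)
    rw [le_div_iff₀ (by positivity), one_mul]
    exact_mod_cast hk1
  have h3lt : (4 : ℚ) ^ j / 3 ^ k < 3 := by
    rw [div_lt_iff₀ (by positivity)]
    exact_mod_cast hk2
  have h1' : (1 : ℚ) < 4 ^ (j + p) / 3 ^ (k + q) := (key 1 (by simp [Th4])).2.2.1 h1le
  have h3' : (4 : ℚ) ^ (j + p) / 3 ^ (k + q) < 3 := by
    have h := key 3 (by simp [Th4])
    refine lt_of_le_of_ne (not_lt.1 fun hc => ?_) h.2.1
    exact absurd (h.2.2.2 hc) (not_lt.2 h3lt.le)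
  have hlog : Nat.log 3 (4 ^ (j + p)) = k + q := by
    apply Nat.log_eq_of_pow_le_of_lt_pow
    · rw [lt_div_iff₀ (by positivity), one_mul] at h1'
      have : 3 ^ (k + q) < 4 ^ (j + p) := by exact_mod_cast h1'
      omega
    · rw [div_lt_iff₀ (by positivity)] at h3'
      have : 4 ^ (j + p) < 3 * 3 ^ (k + q) := by exact_mod_cast h3'
      rw [pow_succ]
      omega
  have hss' : ss (j + p) = 4 ^ (j + p) / 3 ^ (k + q) := by
    unfold ss
    rw [hlog]
  unfold Z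
  rw [hss, hss']
  exact (ze_congr key).symm

end Pool.Agent.Helper97.IR
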